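import Pool.Agent.PSS.StmtsG
import Pool.Agent.Helper85_AT3.LSB
import Pool.Agent.Helper83_AT2.FRS

/-!
# Squad PSS, row FRT: the theorem of Fong and Reynolds for `br_V e`
-/

open scoped BigOperators

set_option linter.unusedSectionVars false

noncomputable section

namespace Pool.Agent.PSS.H63

open Pool.Agent.Helper51_AWC Pool.Agent.Helper79_WRA Pool.Agent.PP Pool.Agent.PP.KF
open Pool.Agent.PP.K9 Pool.Agent.PP.K9.H97 Pool.Agent.PP.H75 Pool.Agent.PP.T3 Pool.Agent.PP.T2

attribute [local instance] Ideal.Quotient.field

section gen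

variable {F A : Type} [Field F] [Group A] [Finite A]

/-- `ℓ`-numbers of conjugates -/
theorem lnum_conj {e b : A → F} (he : IsCl e) (g : A) :
    lnum (st (cj g b)) (mulF e (cj g b)) = lnum (st b) (mulF e b) := by
  have h3 : (st b).map (MulAut.conj g).toMonoidHom = st (cj g b) := by
    ext y
    rw [Subgroup.mem_map, mem_st]
    constructor
    · rintro ⟨t, ht, rfl⟩
      change cj (g * t * g⁻¹) (cj g b) = cj g b
      rw [cj_cj]
      have h4 : cj t b = b := ht
      conv_rhs => rw [← h4, cj_cj]
      congr 1
      group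
    · intro h
      refine ⟨g⁻¹ * y * g, ?_, ?_⟩
      · change cj (g⁻¹ * y * g) b = b
        have h' := congrArg (cj g⁻¹) h
        rw [cj_inv_cj, cj_cj, cj_cj] at h'
        exact h'
      · change g * (g⁻¹ * y * g) * g⁻¹ = y
        group
  rw [← h3, lnum_map _ (MulAut.conj g).injective]
  congr 1
  have e1 : mulF e (cj g b) = cj g (mulF e b) := by rw [cj_mulF, cj_isCl g he]
  rw [e1]
  funext x
  change mulF e b (g⁻¹ * (g * x * g⁻¹) * g) = mulF e b x
  congr 1
  group

/-- the theorem of Fong and Reynolds, the number of the irreducible modular characters -/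
theorem fong {C : Subgroup A} {ℓ : ℕ} (hF : GoodF ℓ F) {e b : A → F} (h : Bd C b) (he : IsBlk e)
    (hne : mulF e b ≠ 0) : ln e = lnum (st b) (mulF e b) := by
  have := Fintype.ofFinite (Om b)
  have h1 := (h.fam2 he.1).card H20.ibf H20.ibj H20.ibn H20.eig hF
  rw [h.sum_eq he hne] at h1
  have h2 : ∀ f : Om b, Nat.card (MulAction.stabilizer A f) *
      lnum (MulAction.stabilizer A f) (mulF e f.1) =
        Nat.card (st b) * lnum (st b) (mulF e b) := by
    intro f
    have h3 : Nat.card (MulAction.stabilizer A f) = Nat.card (st b) := by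
      have k1 : (MulAction.stabilizer A f).index = Fintype.card (Om b) := by
        rw [MulAction.index_stabilizer, ← Nat.card_eq_fintype_card, ← Set.ncard_univ]
        congr 1
        ext f'
        constructor
        · intro _
          trivial
        · intro _
          obtain ⟨g, rfl⟩ := omk_surj f
          obtain ⟨g', rfl⟩ := omk_surj f'
          refine ⟨g' * g⁻¹, ?_⟩
          apply Subtype.ext
          change cj (g' * g⁻¹) (cj g b) = cj g' b
          rw [cj_cj]
          congr 1
          group
      have k2 := (MulAction.stabilizer A f).card_mul_index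
      have k3 := (st b).card_mul_index
      rw [k1] at k2
      rw [index_st] at k3
      have k4 : 0 < Fintype.card (Om b) := Fintype.card_pos_iff.2 ⟨f⟩
      exact Nat.eq_of_mul_eq_mul_right k4 (k2.trans k3.symm)
    rw [h3, om_stab]
    obtain ⟨g, rfl⟩ := omk_surj f
    congr 1
    exact lnum_conj he.1.1 g
  rw [Finset.sum_congr rfl fun f _ => h2 f, Finset.sum_const, Finset.card_univ, smul_eq_mul,
    ← index_st, ← mul_assoc, mul_comm ((st b).index), (st b).card_mul_index] at h1
  exact Nat.eq_of_mul_eq_mul_left Nat.card_pos h1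

end gen

/-- FRT -/
theorem frt : FrtStmt := by
  intro ℓ _ M _ hM G _ _ e V γ hL
  have hF : GoodF ℓ (FF M) := H50.fld ℓ Fact.out M hM
  obtain ⟨hN, -⟩ := H85.nvt ℓ M hM G e V γ hL
  have hCX := H85.cent_le_norm V
  have hnor : (Subgroup.centralizer ((V.subgroupOf (Subgroup.normalizer (V : Set G)) :
      Subgroup (Subgroup.normalizer (V : Set G))) :
      Set (Subgroup.normalizer (V : Set G)))).Normal := by
    have : (V.subgroupOf (Subgroup.normalizer (V : Set G))).Normal :=
      Subgroup.normal_in_normalizer
    exact inferInstance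
  have hbd : Bd _ (fun t : Subgroup.normalizer (V : Set G) => γ t) :=
    ⟨hnor, hN.gam.supp, hN.gam.blk⟩
  have hund : mulF (fun t : Subgroup.normalizer (V : Set G) => br V e t)
      (fun t : Subgroup.normalizer (V : Set G) => γ t) =
      fun t : Subgroup.normalizer (V : Set G) => γ t := by
    rw [← mulF_res _ γ (fun x hx => H66.br_of_not_mem (fun h => hx (hCX h))), hL.und]
  have h1 := fong hF hbd hN.blk (by rw [hund]; exact hbd.ne)
  rw [h1, hund]
  have h2 : (st (fun t : Subgroup.normalizer (V : Set G) => γ t)).map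
      (Subgroup.normalizer (V : Set G)).subtype = Tg V γ := by
    ext y
    rw [Subgroup.mem_map]
    constructor
    · rintro ⟨t, ht, rfl⟩
      refine ⟨t.2, ?_⟩
      intro x
      have h3 := (cj_eq_iff t _).1 ht
      by_cases hx : x ∈ Subgroup.normalizer (V : Set G)
      · exact h3 ⟨x, hx⟩
      · rw [hL.gam.supp x (fun h' => hx (hCX h')), hL.gam.supp]
        intro h'
        apply hx
        have h4 := (Subgroup.normalizer (V : Set G)).mul_mem
          ((Subgroup.normalizer (V : Set G)).mul_mem
            ((Subgroup.normalizer (V : Set G)).inv_mem t.2) (hCX h')) t.2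
        have e1 : (t : G)⁻¹ * (t * x * (t : G)⁻¹) * t = x := by group
        exact e1 ▸ h4
    · rintro ⟨h3, h4⟩
      refine ⟨⟨y, h3⟩, ?_, rfl⟩
      change (⟨y, h3⟩ : Subgroup.normalizer (V : Set G)) ∈
        st (fun t : Subgroup.normalizer (V : Set G) => γ t)
      rw [mem_st, cj_eq_iff]
      intro x
      exact h4 x
  rw [← h2, lnum_map _ (Subgroup.subtype_injective _)]
  rfl

end Pool.Agent.PSS.H63
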