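import Pool.Agent.PSS.StmtsS1e

/-!
# Squad PSS, row PSC: the power series ring is a complete discrete valuation ring
-/

open scoped BigOperators

noncomputable section

namespace Pool.Agent.PSS.H63

open Finset
open Pool.Agent.PFD.D2 (Cdv)

/-- PSC -/
theorem psc : PscStmt := by
  intro F _
  refine ⟨{ π := PowerSeries.X
            κ := PowerSeries.constantCoeff
            surj := ?_
            ker := ?_
            reg := ?_
            loc := ?_
            sep := ?_
            cpl := ?_ }, rfl, rfl⟩
  · intro a
    exact ⟨PowerSeries.C a, by simp⟩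
  · intro r
    constructor
    · intro h
      exact PowerSeries.X_dvd_iff.2 h
    · rintro ⟨s, rfl⟩
      simp
  · intro r h
    rcases mul_eq_zero.1 h with h | h
    · exact absurd h PowerSeries.X_ne_zero
    · exact h
  · intro r h
    exact PowerSeries.isUnit_iff_constantCoeff.2 (isUnit_iff_ne_zero.2 h)
  · intro r h
    ext n
    obtain ⟨s, hs⟩ := h (n + 1)
    have h2 : (PowerSeries.X : PowerSeries F) ^ (n + 1) ∣ r := ⟨s, hs⟩
    rw [PowerSeries.X_pow_dvd_iff] at h2
    rw [h2 n (Nat.lt_succ_self n), map_zero]
  · intro u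
    refine ⟨PowerSeries.mk fun n => ∑ i ∈ range (n + 1), PowerSeries.coeff (n - i) (u i), ?_⟩
    intro n
    have h2 : (PowerSeries.X : PowerSeries F) ^ n ∣
        (PowerSeries.mk fun n => ∑ i ∈ range (n + 1), PowerSeries.coeff (n - i) (u i)) -
          ∑ i ∈ range n, PowerSeries.X ^ i * u i := by
      rw [PowerSeries.X_pow_dvd_iff]
      intro m hm
      rw [map_sub, PowerSeries.coeff_mk, map_sum, sub_eq_zero]
      have h3 : ∀ i ∈ range n, PowerSeries.coeff m (PowerSeries.X ^ i * u i) =
          if i ∈ range (m + 1) then PowerSeries.coeff (m - i) (u i) else 0 := by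
        intro i _
        rw [PowerSeries.coeff_X_pow_mul']
        simp only [Finset.mem_range, Nat.lt_succ_iff]
      rw [Finset.sum_congr rfl h3, ← Finset.sum_filter]
      refine Finset.sum_congr ?_ fun _ _ => rfl
      ext i
      simp only [Finset.mem_filter, Finset.mem_range]
      omega
    obtain ⟨s, hs⟩ := h2
    exact ⟨s, hs⟩

end Pool.Agent.PSS.H63
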