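import Pool.Agent.PSS.StmtsS0
import Pool.Agent.PSS.Nwe

/-!
# Squad PSS, row S0.BKF: the Brauer kernel consists of fixed vectors
-/

noncomputable section

namespace Pool.Agent.PSS.S0.H63

/-- BKF -/
theorem bkf : BkfStmt := by
  intro R H M _ _ _ _ ρ P
  exact BKR_le_FxR

end Pool.Agent.PSS.S0.H63
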