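import Pool.Agent.PSS.StmtsS3

/-!
# Squad PSS, row S3.RDX: reduction of a relative Frobenius system modulo `X`
-/

open scoped BigOperators TensorProduct PowerSeries

noncomputable section

namespace Pool.Agent.PSS.S3.H63

/-- RDX -/
theorem rdx : RdxStmt := by
  intro F W A As K _ _ _ _ _ _ _ _ ω γ q lam lam0 x y hsc hsurj hqw hlr hRF
  have hm : ∀ a b : As, q (a * b) = q a * q b := fun a b => map_mul q a b
  have hs : ∀ (r : F⟦X⟧) (a : As), q (r • a) = PowerSeries.constantCoeff r • q a := by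
    intro r a
    rw [Algebra.smul_def, hm, hsc, Algebra.smul_def]
  refine ⟨?_, ?_, ?_⟩
  · intro a b
    obtain ⟨a, rfl⟩ := hsurj a
    obtain ⟨b, rfl⟩ := hsurj b
    rw [← hm, ← hm, ← hlr, ← hlr, hRF.sym]
  · intro a
    obtain ⟨a, rfl⟩ := hsurj a
    conv_rhs => rw [← hRF.e1 a, map_sum]
    refine Finset.sum_congr rfl fun k _ => ?_
    rw [map_sum]
    refine Finset.sum_congr rfl fun v _ => ?_
    rw [hs, hlr, hm, hm, hm, hqw, hqw]
  · intro a
    obtain ⟨a, rfl⟩ := hsurj a
    conv_rhs => rw [← hRF.e2 a, map_sum]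
    refine Finset.sum_congr rfl fun k _ => ?_
    rw [map_sum]
    refine Finset.sum_congr rfl fun v _ => ?_
    rw [hs, hlr, hm, hm, hm, hqw, hqw]

end Pool.Agent.PSS.S3.H63
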