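import Pool.Agent.PSS.StmtsS1d

/-!
# Squad PSS, row FUN: linear forms on the ring of a deformation
-/

open scoped BigOperators

noncomputable section

namespace Pool.Agent.PSS.H63

open Finset
open Dm (cst smulq)

section lin

variable {k A W : Type} [CommRing k] [Ring A] [Algebra k A] [Group W] {om : W →* A}
  (D : Dm k om)

theorem smulq_X (f : ℕ → A) :
    smulq (PowerSeries.X : PowerSeries k) f = fun n => if n = 0 then 0 else f (n - 1) := by
  funext n
  rw [smulq]
  rcases n with _ | n
  · simp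
  · rw [Finset.sum_eq_single (1, n)]
    · simp
    · rintro ⟨a, b⟩ h hne
      rw [Finset.HasAntidiagonal.mem_antidiagonal] at h
      simp only at h
      rw [PowerSeries.coeff_X, if_neg, zero_smul]
      intro h1
      simp only at h1
      apply hne
      rw [h1] at h ⊢
      have : b = n := by omega
      rw [this]
    · intro h
      exact absurd (by rw [Finset.HasAntidiagonal.mem_antidiagonal]; simp only; omega) h

theorem smulq_C (c : k) (a : A) : smulq (PowerSeries.C c : PowerSeries k) (cst a) = cst (c • a) := by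
  funext n
  rw [smulq, Finset.sum_eq_single (0, n)]
  · rw [cst, cst]
    split_ifs
    · simp
    · simp
  · rintro ⟨a', b⟩ h hne
    rw [Finset.HasAntidiagonal.mem_antidiagonal] at h
    simp only at h
    rw [PowerSeries.coeff_C, if_neg, zero_smul]
    intro h1
    simp only at h1
    apply hne
    rw [h1, zero_add] at h
    rw [h1, h]
  · intro h
    exact absurd (by rw [Finset.HasAntidiagonal.mem_antidiagonal]; simp) h

theorem cst_add (a b : A) : cst (a + b) = cst a + cst b := by
  funext n
  rw [Pi.add_apply, cst, cst, cst]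
  split_ifs
  · rfl
  · rw [add_zero]

theorem of_shift (f : ℕ → A) : D.of f = D.of (cst (f 0)) +
    (PowerSeries.X : PowerSeries k) • D.of (fun n => f (n + 1)) := by
  rw [← D.of_smul, ← D.of_add, smulq_X]
  congr 1
  funext n
  rw [Pi.add_apply, cst]
  rcases n with _ | n
  · simp
  · simp

theorem of_expand (f : ℕ → A) (N : ℕ) : D.of f =
    ∑ j ∈ range N, ((PowerSeries.X : PowerSeries k) ^ j) • D.of (cst (f j)) +
      ((PowerSeries.X : PowerSeries k) ^ N) • D.of (fun n => f (n + N)) := by
  induction N with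
  | zero =>
    rw [Finset.range_zero, Finset.sum_empty, pow_zero, one_smul, zero_add]
    rfl
  | succ N ih =>
    rw [Finset.sum_range_succ, ih, of_shift D (fun n => f (n + N)), smul_add, smul_smul, ← pow_succ]
    have e1 : (fun n => f (n + 1 + N)) = fun n => f (n + (N + 1)) := by
      funext n
      congr 1
      omega
    simp only [zero_add]
    rw [e1, add_assoc]

/-- the rearrangement of the double sum -/
theorem rearr (t : ℕ → (A →ₗ[k] k)) (c : PowerSeries k) (f : ℕ → A) (n : ℕ) :
    ∑ p ∈ antidiagonal n, t p.1 (smulq c f p.2) =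
      ∑ p ∈ antidiagonal n, PowerSeries.coeff p.1 c * ∑ q ∈ antidiagonal p.2, t q.1 (f q.2) := by
  have h2 : ∀ p : ℕ × ℕ, t p.1 (smulq c f p.2) =
      ∑ q ∈ antidiagonal p.2, PowerSeries.coeff q.1 c * t p.1 (f q.2) := by
    intro p
    rw [smulq, map_sum]
    refine Finset.sum_congr rfl fun q _ => ?_
    rw [map_smul, smul_eq_mul]
  simp_rw [h2, Finset.mul_sum]
  have e : ∀ S : ℕ → ℕ → ℕ → k, ∑ p ∈ antidiagonal n, ∑ q ∈ antidiagonal p.2,
      S p.1 q.1 q.2 = ∑ x ∈ (antidiagonal n).sigma (fun p => antidiagonal p.2),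
        S x.1.1 x.2.1 x.2.2 := by
    intro S
    rw [Finset.sum_sigma]
  rw [e (fun a b c' => PowerSeries.coeff b c * t a (f c')),
    e (fun a b c' => PowerSeries.coeff a c * t b (f c'))]
  refine Finset.sum_nbij'
    (i := fun x => ⟨(x.2.1, x.1.1 + x.2.2), (x.1.1, x.2.2)⟩)
    (j := fun x => ⟨(x.2.1, x.1.1 + x.2.2), (x.1.1, x.2.2)⟩) ?_ ?_ ?_ ?_ ?_
  · rintro ⟨⟨a, b⟩, ⟨c, d⟩⟩ h
    simp only [mem_sigma, Finset.HasAntidiagonal.mem_antidiagonal] at h ⊢
    refine ⟨?_, trivial⟩
    omega
  · rintro ⟨⟨a, b⟩, ⟨c, d⟩⟩ h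
    simp only [mem_sigma, Finset.HasAntidiagonal.mem_antidiagonal] at h ⊢
    refine ⟨?_, trivial⟩
    omega
  · rintro ⟨⟨a, b⟩, ⟨c, d⟩⟩ h
    simp only [mem_sigma, Finset.HasAntidiagonal.mem_antidiagonal] at h
    obtain ⟨h1, h2⟩ := h
    subst h2
    rfl
  · rintro ⟨⟨a, b⟩, ⟨c, d⟩⟩ h
    simp only [mem_sigma, Finset.HasAntidiagonal.mem_antidiagonal] at h
    obtain ⟨h1, h2⟩ := h
    subst h2
    rfl
  · rintro ⟨⟨a, b⟩, ⟨c, d⟩⟩ h
    rfl

theorem sq_add (x y : D.R) : D.sq (x + y) = D.sq x + D.sq y := by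
  conv_lhs => rw [← D.of_sq x, ← D.of_sq y, ← D.of_add, D.sq_of]

theorem sq_smul (c : PowerSeries k) (x : D.R) : D.sq (c • x) = smulq c (D.sq x) := by
  conv_lhs => rw [← D.of_sq x, ← D.of_smul, D.sq_of]

end lin

/-- FUN -/
theorem funs : FunStmt := by
  intro k W A _ _ _ _ om D
  constructor
  · intro t
    refine ⟨{ toFun := fun x => PowerSeries.mk fun n => ∑ p ∈ antidiagonal n, t p.1 (D.sq x p.2)
              map_add' := ?_
              map_smul' := ?_ }, ?_⟩
    · intro x y
      ext n
      rw [map_add, PowerSeries.coeff_mk, PowerSeries.coeff_mk, PowerSeries.coeff_mk,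
        ← Finset.sum_add_distrib]
      refine Finset.sum_congr rfl fun p _ => ?_
      rw [sq_add, Pi.add_apply, map_add]
    · intro c x
      ext n
      rw [PowerSeries.coeff_mk, RingHom.id_apply, smul_eq_mul, PowerSeries.coeff_mul, sq_smul,
        rearr]
      refine Finset.sum_congr rfl fun p _ => ?_
      rw [PowerSeries.coeff_mk]
    · intro f n
      show PowerSeries.coeff n (PowerSeries.mk fun n =>
        ∑ p ∈ antidiagonal n, t p.1 (D.sq (D.of f) p.2)) = _
      rw [PowerSeries.coeff_mk, D.sq_of]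
  · intro Λ
    refine ⟨fun n =>
      { toFun := fun a => PowerSeries.coeff n (Λ (D.of (cst a)))
        map_add' := ?_
        map_smul' := ?_ }, ?_⟩
    · intro a b
      rw [cst_add, D.of_add, map_add, map_add]
    · intro c a
      rw [← smulq_C (k := k), D.of_smul, map_smul, smul_eq_mul, RingHom.id_apply, smul_eq_mul,
        PowerSeries.coeff_C_mul]
    · intro f n
      rw [of_expand D f (n + 1), map_add, map_sum, map_add, map_sum, map_smul, smul_eq_mul,
        PowerSeries.coeff_X_pow_mul', if_neg (by omega), add_zero]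
      rw [← Finset.Nat.sum_antidiagonal_swap, Finset.Nat.sum_antidiagonal_eq_sum_range_succ_mk]
      refine Finset.sum_congr rfl fun j hj => ?_
      rw [map_smul, smul_eq_mul, PowerSeries.coeff_X_pow_mul',
        if_pos (Nat.lt_succ_iff.1 (Finset.mem_range.1 hj))]
      rfl

end Pool.Agent.PSS.H63
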