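import Pool.Agent.PSS.StmtsS1b

/-!
# Squad PSS, row FXL: vectors fixed modulo `i A` are congruent to fixed vectors
-/

open scoped BigOperators

noncomputable section

namespace Pool.Agent.PSS.H63

open Pool.Agent.PFD.D2b (FrR)

/-- FXL -/
theorem fxl : FxlStmt := by
  intro R K V A B κ Ω _ _ _ _ _ _ _ _ _ _ _ _ _ _ α lam x y b c C X s hs
  classical
  obtain ⟨hb, hc, hsum⟩ := C.frK
  -- representatives of the orbits
  set r : Ω → Ω := fun ω => (Quotient.mk (MulAction.orbitRel X Ω) ω).out with hr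
  have hr1 : ∀ g ∈ X, ∀ ω, r (g • ω) = r ω := by
    intro g hg ω
    have h1 : (Quotient.mk (MulAction.orbitRel X Ω) (g • ω)) =
        Quotient.mk (MulAction.orbitRel X Ω) ω := by
      apply Quotient.sound
      exact ⟨⟨g, hg⟩, rfl⟩
    rw [hr]
    show (Quotient.mk (MulAction.orbitRel X Ω) (g • ω)).out = _
    rw [h1]
  have hr2 : ∀ ω, ∃ g ∈ X, g • ω = r ω := by
    intro ω
    have h1 : (MulAction.orbitRel X Ω) (r ω) ω := Quotient.exact (Quotient.out_eq _)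
    obtain ⟨⟨g, hg⟩, h⟩ := h1
    exact ⟨g, hg, h⟩
  have hd : ∀ ω, ∃ ρ : R, C.cK (r ω) s - C.cK ω s = algebraMap R K ρ := by
    intro ω
    obtain ⟨g, hg, h⟩ := hr2 ω
    obtain ⟨a, ha⟩ := hs g hg
    refine ⟨-c (g • ω) a, ?_⟩
    have h2 : C.cK ω s = C.cK (g • ω) (bw K (ia C.i α) g s) := (hc g ω s).symm
    rw [← h, h2, ← map_sub, ← neg_sub, ← ha, map_neg, C.ck, map_neg]
  choose ρ hρ using hd
  refine ⟨∑ ω, C.cK (r ω) s • C.i (b ω), ?_, ?_⟩
  · intro g hg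
    rw [map_sum, ← Equiv.sum_comp (MulAction.toPerm g) (fun ω => C.cK (r ω) s • C.i (b ω))]
    refine Finset.sum_congr rfl fun ω _ => ?_
    rw [map_smul, MulAction.toPerm_apply, hr1 g hg, ← hb g ω]
  · refine ⟨∑ ω, ρ ω • b ω, ?_⟩
    have h1 : s = ∑ ω, C.cK ω s • C.i (b ω) := (hsum s).symm
    conv_rhs => rw [h1]
    rw [map_sum, ← Finset.sum_sub_distrib]
    refine Finset.sum_congr rfl fun ω _ => ?_
    rw [map_smul, ← C.tow, ← hρ, sub_smul]
    congr 3

end Pool.Agent.PSS.H63
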