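import Pool.Agent.PSS.StmtsS3

/-!
# Squad PSS, row S3.UNX: units lift
-/

open scoped BigOperators TensorProduct PowerSeries

noncomputable section

namespace Pool.Agent.PSS.S3.H63

open Pool.Agent.PFD.D2b (FrR)

/-- A frame generates. -/
theorem fin_of_per {R V E A : Type} [CommRing R] [CommGroup V] [Group E] [Ring A] [Algebra R A]
    (φ : E →* MulAut V) (α : V →* A) (h : Per R φ α) : Module.Finite R A := by
  classical
  obtain ⟨Ω, _, _, b, c, hf, _⟩ := h
  refine ⟨⟨Finset.univ.image b, ?_⟩⟩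
  rw [eq_top_iff]
  intro a _
  rw [← hf.2.2 a]
  refine Submodule.sum_mem _ fun t _ => Submodule.smul_mem _ _ (Submodule.subset_span ?_)
  simp

/-- Nakayama: a linear map congruent to the identity modulo `X` is surjective. -/
theorem surj_of_congr {F M : Type} [Field F] [AddCommGroup M] [Module F⟦X⟧ M]
    [Module.Finite F⟦X⟧ M] (u : M →ₗ[F⟦X⟧] M)
    (h : ∀ x, ∃ y, u x - x = (PowerSeries.X : F⟦X⟧) • y) : Function.Surjective u := by
  rw [← LinearMap.range_eq_top, eq_top_iff]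
  refine Submodule.le_of_le_smul_of_le_jacobson_bot (I := Ideal.span {(PowerSeries.X : F⟦X⟧)})
    Module.Finite.fg_top ?_ ?_
  · refine le_trans ?_ (IsLocalRing.maximalIdeal_le_jacobson _)
    rw [Ideal.span_le, Set.singleton_subset_iff]
    show (PowerSeries.X : F⟦X⟧) ∈ IsLocalRing.maximalIdeal F⟦X⟧
    rw [IsLocalRing.mem_maximalIdeal, mem_nonunits_iff, PowerSeries.isUnit_iff_constantCoeff]
    simp
  · intro x _
    obtain ⟨y, hy⟩ := h x
    have e : x = u x + (PowerSeries.X : F⟦X⟧) • (-y) := by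
      rw [smul_neg, ← hy]
      abel
    rw [e]
    refine Submodule.add_mem_sup (LinearMap.mem_range_self u x) ?_
    exact Submodule.smul_mem_smul (Ideal.subset_span rfl) Submodule.mem_top

/-- UNX -/
theorem unx : UnxStmt := by
  intro F W E A As _ _ _ _ _ _ _ ψ γ q hper hsurj hker u v h1 h2
  haveI : Module.Finite F⟦X⟧ As := fin_of_per ψ γ hper
  obtain ⟨u1, rfl⟩ := hsurj v
  have e1 : q (u * u1 - 1) = 0 := by rw [map_sub, map_mul, map_one, h1, sub_self]
  have e2 : q (u1 * u - 1) = 0 := by rw [map_sub, map_mul, map_one, h2, sub_self]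
  obtain ⟨c1, hc1⟩ := hker _ e1
  obtain ⟨c2, hc2⟩ := hker _ e2
  have s1 : Function.Surjective (LinearMap.mulLeft F⟦X⟧ (u * u1)) := by
    apply surj_of_congr
    intro a
    refine ⟨c1 * a, ?_⟩
    rw [LinearMap.mulLeft_apply, ← smul_mul_assoc, ← hc1, sub_mul, one_mul]
  have s2 : Function.Surjective (LinearMap.mulRight F⟦X⟧ (u1 * u)) := by
    apply surj_of_congr
    intro a
    refine ⟨a * c2, ?_⟩
    rw [LinearMap.mulRight_apply, ← mul_smul_comm, ← hc2, mul_sub, mul_one]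
  obtain ⟨d1, hd1⟩ := s1 1
  obtain ⟨d2, hd2⟩ := s2 1
  rw [LinearMap.mulLeft_apply] at hd1
  rw [LinearMap.mulRight_apply] at hd2
  have r1 : u * (u1 * d1) = 1 := by rw [← mul_assoc, hd1]
  have r2 : (d2 * u1) * u = 1 := by rw [mul_assoc, hd2]
  have r3 : d2 * u1 = u1 * d1 := by
    calc d2 * u1 = (d2 * u1) * (u * (u1 * d1)) := by rw [r1, mul_one]
      _ = ((d2 * u1) * u) * (u1 * d1) := by rw [← mul_assoc]
      _ = u1 * d1 := by rw [r2, one_mul]
  exact ⟨u1 * d1, r1, by rw [← r3, r2]⟩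

end Pool.Agent.PSS.S3.H63
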